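import Pool.Agent.X26.LF.Stm

set_option autoImplicit false

namespace Pool.Agent.X40.LF

open Finset Pool.Agent.X26.LF

open Classical in
lemma one_conf (hC : S_CNT) {m p N : ℕ} [Fact p.Prime] (u v : Fin m → ℤ) (A : Finset (ZMod p))
    (s : ZMod p) (hm : 1 ≤ m) (hNP : NP u v p) (hF : Free v p A) (ι : Fin m ↪ Fin N)
    (K L : Finset (Fin m)) (a : Fin m → ZMod p) (κ : Fin m → Fin N) (ha : ∀ k ∈ K, a k ∈ A) :
    p ^ 2 * (univ.filter fun x : Fin N → ZMod p => ∑ j, (u j : ZMod p) * x (ι j) = s ∧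
      ∑ k ∈ K, (v k : ZMod p) * a k + ∑ k ∈ L, (v k : ZMod p) * x (κ k) = 1).card ≤ p ^ N := by
  obtain ⟨c, hc⟩ : ∃ c : Fin N → ZMod p, c = fun i => ∑ j, if ι j = i then (u j : ZMod p) else 0 :=
    ⟨_, rfl⟩
  obtain ⟨d, hd⟩ : ∃ d : Fin N → ZMod p, d = fun i => ∑ k ∈ L, if κ k = i then (v k : ZMod p) else 0 :=
    ⟨_, rfl⟩
  have hcs : ∀ x : Fin N → ZMod p, ∑ i, c i * x i = ∑ j, (u j : ZMod p) * x (ι j) := by
    intro x
    rw [hc]
    simp only [Finset.sum_mul]
    rw [Finset.sum_comm]
    apply Finset.sum_congr rfl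
    intro j _
    rw [Finset.sum_eq_single (ι j)]
    · rw [if_pos rfl]
    · intro b _ hb
      rw [if_neg (Ne.symm hb), zero_mul]
    · intro h; exact absurd (Finset.mem_univ _) h
  have hds : ∀ x : Fin N → ZMod p, ∑ i, d i * x i = ∑ k ∈ L, (v k : ZMod p) * x (κ k) := by
    intro x
    rw [hd]
    simp only [Finset.sum_mul]
    rw [Finset.sum_comm]
    apply Finset.sum_congr rfl
    intro j _
    rw [Finset.sum_eq_single (κ j)]
    · rw [if_pos rfl]
    · intro b _ hb
      rw [if_neg (Ne.symm hb), zero_mul]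
    · intro h; exact absurd (Finset.mem_univ _) h
  have hcu : ∀ j, c (ι j) = (u j : ZMod p) := by
    intro j
    rw [hc]
    simp only
    rw [Finset.sum_eq_single j]
    · rw [if_pos rfl]
    · intro b _ hb
      rw [if_neg (fun h => hb (ι.injective h))]
    · intro h; exact absurd (Finset.mem_univ _) h
  have hc0 : c ≠ 0 := by
    intro h
    have := hcu ⟨0, by omega⟩
    rw [h] at this
    exact hNP.1 _ this.symm
  by_cases hl : ∃ l, d = fun i => l * c i
  · obtain ⟨l, hl⟩ := hl
    by_cases hl0 : l = 0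
    · have : (univ.filter fun x : Fin N → ZMod p => ∑ j, (u j : ZMod p) * x (ι j) = s ∧
          ∑ k ∈ K, (v k : ZMod p) * a k + ∑ k ∈ L, (v k : ZMod p) * x (κ k) = 1) = ∅ := by
        apply Finset.filter_eq_empty_iff.mpr
        rintro x - ⟨_, h2⟩
        rw [← hds, hl, hl0] at h2
        simp only [zero_mul, Finset.sum_const_zero, add_zero] at h2
        exact hF K a ha h2
      rw [this]
      simp
    · exfalso
      have h1 : ∀ j, ∃ k ∈ L, κ k = ι j := by
        intro j
        by_contra hcon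
        push Not at hcon
        have e1 : d (ι j) = 0 := by
          rw [hd]
          apply Finset.sum_eq_zero
          intro k hk
          rw [if_neg (hcon k hk)]
        rw [hl] at e1
        simp only [hcu] at e1
        rcases mul_eq_zero.mp e1 with h | h
        · exact hl0 h
        · exact hNP.1 j h
      choose f hf1 hf2 using h1
      have hinj : Function.Injective f := by
        intro j j' h
        apply ι.injective
        rw [← hf2, ← hf2, h]
      have hbij : Function.Bijective f := Finite.injective_iff_bijective.mp hinj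
      let σ : Equiv.Perm (Fin m) := (Equiv.ofBijective f hbij).symm
      have hσ : ∀ i, f (σ i) = i := fun i => (Equiv.ofBijective f hbij).apply_symm_apply i
      have hκ : ∀ i, κ i = ι (σ i) := by
        intro i
        rw [← hf2, hσ]
      apply hNP.2 σ l
      intro i
      have e1 : d (κ i) = (v i : ZMod p) := by
        rw [hd]
        simp only
        rw [Finset.sum_eq_single i]
        · rw [if_pos rfl]
        · intro b _ hb
          rw [if_neg]
          intro h
          rw [hκ, hκ] at h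
          exact hb (σ.injective (ι.injective h))
        · intro h
          exfalso
          apply h
          have := hf1 (σ i)
          rwa [hσ] at this
      rw [← e1, hl]
      simp only
      rw [hκ, hcu]
  · have h2 := (hC p N c d s (1 - ∑ k ∈ K, (v k : ZMod p) * a k) hc0).2 hl
    rw [← h2]
    apply Nat.mul_le_mul_left
    apply Finset.card_le_card
    intro x hx
    rw [Finset.mem_filter] at hx ⊢
    refine ⟨Finset.mem_univ _, ?_, ?_⟩
    · rw [hcs]; exact hx.2.1
    · rw [hds, eq_sub_iff_add_eq, add_comm]; exact hx.2.2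

/-- configurations -/
abbrev T (m N : ℕ) (B : Type) : Type :=
  Σ k : Fin m, (Fin m ↪ Fin N) × Fin m × Finset (Fin m) × Finset (Fin m) ×
    ({i : Fin m // i ≠ k} → (B ⊕ Fin N))

lemma card_T (m N : ℕ) (B : Type) [Fintype B] (hm : 1 ≤ m) :
    Fintype.card (T m N B) ≤ m ^ 2 * 4 ^ m * (Fintype.card B + N) ^ (2 * m - 1) := by
  classical
  rw [Fintype.card_sigma]
  have h1 : ∀ k : Fin m, Fintype.card ((Fin m ↪ Fin N) × Fin m × Finset (Fin m) × Finset (Fin m) ×
      ({i : Fin m // i ≠ k} → (B ⊕ Fin N))) ≤ m * 4 ^ m * (Fintype.card B + N) ^ (2 * m - 1) := by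
    intro k
    rw [Fintype.card_prod, Fintype.card_prod, Fintype.card_prod, Fintype.card_prod, Fintype.card_fun,
      Fintype.card_sum, Fintype.card_fin, Fintype.card_finset, Fintype.card_fin,
      Fintype.card_embedding_eq, Fintype.card_fin, Fintype.card_fin]
    have e1 : Fintype.card {i : Fin m // i ≠ k} = m - 1 := by
      rw [Fintype.card_subtype_compl, Fintype.card_fin, Fintype.card_subtype_eq]
    rw [e1]
    have e2 : N.descFactorial m ≤ (Fintype.card B + N) ^ m :=
      (Nat.descFactorial_le_pow N m).trans (Nat.pow_le_pow_left (by omega) m)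
    calc N.descFactorial m * (m * (2 ^ m * (2 ^ m * (Fintype.card B + N) ^ (m - 1))))
        ≤ (Fintype.card B + N) ^ m * (m * (2 ^ m * (2 ^ m * (Fintype.card B + N) ^ (m - 1)))) :=
          Nat.mul_le_mul_right _ e2
      _ = m * (2 ^ m * 2 ^ m) * ((Fintype.card B + N) ^ m * (Fintype.card B + N) ^ (m - 1)) := by ring
      _ = m * 4 ^ m * (Fintype.card B + N) ^ (2 * m - 1) := by
          rw [← mul_pow, ← pow_add]
          congr 2
          omega
  calc ∑ k : Fin m, Fintype.card ((Fin m ↪ Fin N) × Fin m × Finset (Fin m) × Finset (Fin m) ×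
      ({i : Fin m // i ≠ k} → (B ⊕ Fin N)))
      ≤ ∑ _k : Fin m, m * 4 ^ m * (Fintype.card B + N) ^ (2 * m - 1) :=
        Finset.sum_le_sum (fun k _ => h1 k)
    _ = _ := by
      rw [Finset.sum_const, Finset.card_univ, Fintype.card_fin, smul_eq_mul]
      ring

theorem t_BAD : S_BAD := by
  classical
  intro hC m p N _ u v A s hm hNP hF
  -- data of a configuration
  let κf : T m N A → Fin m → Fin N := fun t i =>
    if h : i ≠ t.1 then Sum.elim (fun _ => t.2.1 t.2.2.1) id (t.2.2.2.2.2 ⟨i, h⟩) else t.2.1 t.2.2.1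
  let af : T m N A → Fin m → ZMod p := fun t i =>
    if h : i ≠ t.1 then Sum.elim (fun y : A => (y : ZMod p)) (fun _ => (0 : ZMod p)) (t.2.2.2.2.2 ⟨i, h⟩) else 0
  let E : T m N A → Finset (Fin N → ZMod p) := fun t =>
    univ.filter fun x : Fin N → ZMod p => (∀ k ∈ t.2.2.2.1, af t k ∈ A) ∧
      (∑ j, (u j : ZMod p) * x (t.2.1 j) = s ∧
      ∑ k ∈ t.2.2.2.1, (v k : ZMod p) * af t k + ∑ k ∈ t.2.2.2.2.1, (v k : ZMod p) * x (κf t k) = 1)
  have hE : ∀ t, p ^ 2 * (E t).card ≤ p ^ N := by
    intro t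
    by_cases h : ∀ k ∈ t.2.2.2.1, af t k ∈ A
    · refine le_trans ?_ (one_conf hC u v A s hm hNP hF t.2.1 t.2.2.2.1 t.2.2.2.2.1 (af t) (κf t) h)
      apply Nat.mul_le_mul_left
      apply Finset.card_le_card
      intro x hx
      rw [Finset.mem_filter] at hx ⊢
      exact ⟨hx.1, hx.2.2⟩
    · have : E t = ∅ := by
        apply Finset.filter_eq_empty_iff.mpr
        rintro x - ⟨h1, _⟩
        exact h h1
      rw [this]
      simp
  have hcov : (univ.filter fun x : Fin N → ZMod p => ∃ ι : Fin m ↪ Fin N,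
      ∑ j, (u j : ZMod p) * x (ι j) = s ∧ ∃ j, Bad v p A x (ι j)) ⊆ univ.biUnion E := by
    intro x hx
    rw [Finset.mem_filter] at hx
    obtain ⟨-, ι, hs, j, K, L, a, κ, hKL, ha, ⟨k, hkL, hk⟩, hsum⟩ := hx
    rw [Finset.mem_biUnion]
    let b : {i : Fin m // i ≠ k} → (A ⊕ Fin N) := fun i =>
      if h : i.1 ∈ K then Sum.inl ⟨a i.1, ha i.1 h⟩ else Sum.inr (κ i.1)
    refine ⟨⟨k, ι, j, K, L, b⟩, Finset.mem_univ _, ?_⟩
    have h1 : ∀ i ∈ K, af ⟨k, ι, j, K, L, b⟩ i = a i := by
      intro i hi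
      have hik : i ≠ k := by
        rintro rfl
        exact Finset.disjoint_left.mp hKL hi hkL
      simp only [af, b]
      rw [dif_pos hik, dif_pos hi]
      rfl
    have h2 : ∀ i ∈ L, κf ⟨k, ι, j, K, L, b⟩ i = κ i := by
      intro i hi
      by_cases hik : i ≠ k
      · have hiK : i ∉ K := fun h => Finset.disjoint_left.mp hKL h hi
        simp only [κf, b]
        rw [dif_pos hik, dif_neg hiK]
        rfl
      · simp only [κf, b]
        rw [dif_neg hik]
        push Not at hik
        rw [hik, hk]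
    simp only [E]
    rw [Finset.mem_filter]
    refine ⟨Finset.mem_univ _, ?_, hs, ?_⟩
    · intro i hi
      rw [h1 i hi]
      exact ha i hi
    · have g1 : ∑ i ∈ K, (v i : ZMod p) * af ⟨k, ι, j, K, L, b⟩ i = ∑ i ∈ K, (v i : ZMod p) * a i :=
        Finset.sum_congr rfl (fun i hi => by rw [h1 i hi])
      have g2 : ∑ i ∈ L, (v i : ZMod p) * x (κf ⟨k, ι, j, K, L, b⟩ i) = ∑ i ∈ L, (v i : ZMod p) * x (κ i) :=
        Finset.sum_congr rfl (fun i hi => by rw [h2 i hi])
      exact (congrArg₂ (· + ·) g1 g2).trans hsum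
  calc p ^ 2 * (univ.filter fun x : Fin N → ZMod p => ∃ ι : Fin m ↪ Fin N,
      ∑ j, (u j : ZMod p) * x (ι j) = s ∧ ∃ j, Bad v p A x (ι j)).card
      ≤ p ^ 2 * (univ.biUnion E).card := Nat.mul_le_mul_left _ (Finset.card_le_card hcov)
    _ ≤ p ^ 2 * ∑ t, (E t).card := Nat.mul_le_mul_left _ Finset.card_biUnion_le
    _ = ∑ t, p ^ 2 * (E t).card := Finset.mul_sum _ _ _
    _ ≤ ∑ _t : T m N A, p ^ N := Finset.sum_le_sum (fun t _ => hE t)
    _ = Fintype.card (T m N A) * p ^ N := by
      rw [Finset.sum_const, Finset.card_univ, smul_eq_mul]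
    _ ≤ m ^ 2 * 4 ^ m * (A.card + N) ^ (2 * m - 1) * p ^ N := by
      apply Nat.mul_le_mul_right
      have := card_T m N A hm
      rwa [Fintype.card_coe] at this

end Pool.Agent.X40.LF
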